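import Pool.Agent.KS7_39.D55.Fib
import Pool.Graph.R_pool_sql_team_seeded_47a924f7.T6.H55.ST.Cex

/-!
# MP_7614c4_an: continuous maps between parabolically induced actions which commute with a lattice

`G` is a connected simple real Lie group (of any real rank), `Γ` a lattice, `Q` a proper parabolic
subgroup, `φ : Q → ℝ` any continuous homomorphism.  The flows `ρ`, `ρ'` are only continuous, on a
topological space `M` and a Tychonoff space `M'`, and `(G × M) / Q`, `(G × M') / Q` carry the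
quotient topologies.  Every continuous `Γ`-equivariant map `(G × M) / Q → (G × M') / Q` is
`[g, m] ↦ [g, k m]` for a unique continuous `k : M → M'`, and these `k` are exactly the continuous
maps with `k ∘ ρ_t = ρ'_t ∘ k` for all `t` in the closure of the range of `φ`.
-/

set_option autoImplicit false

open scoped Manifold ContDiff Topology
open Pool.Agent.T6.H55.ST (SimpleLie Parabolic)
open Pool.Agent.KS7_39.D55

namespace Pool.Agent.Results.MP_7614c4_an.ContinuousMaps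

/-- The range of `φ`, as a set of real numbers. -/
def rng {G : Type} [Group G] {Q : Subgroup G} (φ : Q →* Multiplicative ℝ) : Set ℝ :=
  Set.range fun q : Q => (Multiplicative.toAdd (φ q) : ℝ)

/-- The restrictions to `Γ` of the two induced actions are conjugate by a homeomorphism. -/
def TopLatticeConj {G : Type} [TopologicalSpace G] [Group G] {Q : Subgroup G} (Γ : Subgroup G)
    (φ : Q →* Multiplicative ℝ) {M M' : Type} [TopologicalSpace M] [TopologicalSpace M']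
    (ρ : CFlow M) (ρ' : CFlow M') : Prop :=
  ∃ h : Ind φ ρ ≃ₜ Ind φ ρ', ∀ γ ∈ Γ, ∀ x, h (act φ ρ γ x) = act φ ρ' γ (h x)

section Easy

variable {G : Type} [TopologicalSpace G] [Group G]
  {M : Type} [TopologicalSpace M] {M' : Type} [TopologicalSpace M'] {Q : Subgroup G}

theorem inter (φ : Q →* Multiplicative ℝ) (ρ : CFlow M) (ρ' : CFlow M')
    (h : Ind φ ρ → Ind φ ρ') (k : M → M')
    (hk2 : ∀ g m, h (cls φ ρ (g, m)) = cls φ ρ' (g, k m)) (q : Q) (m : M) :
    k (ρ.map (Multiplicative.toAdd (φ q)) m) = ρ'.map (Multiplicative.toAdd (φ q)) (k m) := by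
  have h1 := hk2 ((1 : G) * (q : G)⁻¹) (ρ.map (Multiplicative.toAdd (φ q)) m)
  rw [cls_q φ ρ 1 m q, hk2 1 m, ← cls_q φ ρ' 1 (k m) q] at h1
  exact (cls_inj φ ρ' _ _ _ h1).symm

theorem interCl [T2Space M'] (φ : Q →* Multiplicative ℝ) (ρ : CFlow M) (ρ' : CFlow M')
    (k : M → M') (hk : Continuous k)
    (hq : ∀ (q : Q) (m : M),
      k (ρ.map (Multiplicative.toAdd (φ q)) m) = ρ'.map (Multiplicative.toAdd (φ q)) (k m)) :
    ∀ t ∈ closure (rng φ), ∀ m, k (ρ.map t m) = ρ'.map t (k m) := by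
  intro t ht m
  have c1 : Continuous fun s : ℝ => k (ρ.map s m) := by
    have : Continuous fun s : ℝ => ((s, m) : ℝ × M) := by fun_prop
    exact hk.comp (ρ.cont.comp this)
  have c2 : Continuous fun s : ℝ => ρ'.map s (k m) := by
    have : Continuous fun s : ℝ => ((s, k m) : ℝ × M') := by fun_prop
    exact ρ'.cont.comp this
  have hcl : IsClosed {s : ℝ | k (ρ.map s m) = ρ'.map s (k m)} := isClosed_eq c1 c2
  refine closure_minimal ?_ hcl ht
  rintro _ ⟨q, rfl⟩
  exact hq q m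

theorem contOf (φ : Q →* Multiplicative ℝ) (ρ : CFlow M) (ρ' : CFlow M')
    (h : Ind φ ρ → Ind φ ρ') (k : M → M') (hk : Continuous k)
    (hk2 : ∀ g m, h (cls φ ρ (g, m)) = cls φ ρ' (g, k m)) : Continuous h := by
  have hq : Topology.IsQuotientMap (cls φ ρ) := isQuotientMap_quot_mk
  rw [hq.continuous_iff]
  have e : h ∘ cls φ ρ = fun x : G × M => cls φ ρ' (x.1, k x.2) := by
    funext x
    exact hk2 x.1 x.2
  rw [e]
  exact (cls_cont φ ρ').comp (by fun_prop)

theorem equivOf (φ : Q →* Multiplicative ℝ) (ρ : CFlow M) (ρ' : CFlow M')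
    (h : Ind φ ρ → Ind φ ρ') (k : M → M')
    (hk2 : ∀ g m, h (cls φ ρ (g, m)) = cls φ ρ' (g, k m)) (g : G) (x : Ind φ ρ) :
    h (act φ ρ g x) = act φ ρ' g (h x) := by
  obtain ⟨y, rfl⟩ := Quotient.exists_rep x
  show h (act φ ρ g (cls φ ρ y)) = act φ ρ' g (h (cls φ ρ y))
  rw [act_cls, hk2, show y = (y.1, y.2) from rfl, hk2, act_cls]

/-- The induced map of a map which intertwines the flows on the range of `φ`. -/
def indMap (φ : Q →* Multiplicative ℝ) (ρ : CFlow M) (ρ' : CFlow M') (k : M → M')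
    (hq : ∀ (q : Q) (m : M),
      k (ρ.map (Multiplicative.toAdd (φ q)) m) = ρ'.map (Multiplicative.toAdd (φ q)) (k m)) :
    Ind φ ρ → Ind φ ρ' :=
  Quotient.map' (s₁ := orb φ ρ) (s₂ := orb φ ρ') (fun x => (x.1, k x.2)) (by
    rintro x y ⟨q, h1, h2⟩
    exact ⟨q, h1, by simp only; rw [h2, hq]⟩)

theorem homeoOf (Γ : Subgroup G) (φ : Q →* Multiplicative ℝ) (ρ : CFlow M) (ρ' : CFlow M')
    (k : M ≃ₜ M') (hq : ∀ (q : Q) (m : M),
      k (ρ.map (Multiplicative.toAdd (φ q)) m) = ρ'.map (Multiplicative.toAdd (φ q)) (k m)) :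
    TopLatticeConj Γ φ ρ ρ' := by
  have hq' : ∀ (q : Q) (m : M'), k.symm (ρ'.map (Multiplicative.toAdd (φ q)) m) =
      ρ.map (Multiplicative.toAdd (φ q)) (k.symm m) := by
    intro q m
    apply k.injective
    rw [hq, Homeomorph.apply_symm_apply, Homeomorph.apply_symm_apply]
  refine ⟨⟨⟨indMap φ ρ ρ' k hq, indMap φ ρ' ρ k.symm hq', ?_, ?_⟩, ?_, ?_⟩, ?_⟩
  · intro x
    obtain ⟨y, rfl⟩ := Quotient.exists_rep x
    show cls φ ρ (y.1, k.symm (k y.2)) = cls φ ρ y
    rw [Homeomorph.symm_apply_apply]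
  · intro x
    obtain ⟨y, rfl⟩ := Quotient.exists_rep x
    show cls φ ρ' (y.1, k (k.symm y.2)) = cls φ ρ' y
    rw [Homeomorph.apply_symm_apply]
  · exact contOf φ ρ ρ' _ k k.continuous (fun g m => rfl)
  · exact contOf φ ρ' ρ _ k.symm k.symm.continuous (fun g m => rfl)
  · intro γ _ x
    exact equivOf φ ρ ρ' (indMap φ ρ ρ' k hq) k (fun g m => rfl) γ x

end Easy

section Cex

open Pool.Agent.T6.H55.ST.ModCEX

/-- A smooth flow is a continuous flow. -/
def ofS {F : Type} [NormedAddCommGroup F] [NormedSpace ℝ F]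
    {M : Type} [TopologicalSpace M] [ChartedSpace F M] (ρ : Pool.Agent.T6.H55.ST.SFlow F M) :
    CFlow M := ⟨ρ.map, ρ.smooth.continuous, ρ.zero, ρ.add⟩

theorem cexTop {G : Type} [TopologicalSpace G] [Group G] (Γ Q : Subgroup G)
    (φ : Q →* Multiplicative ℝ) (hd : ¬ Dense (rng φ)) :
    ∃ ρ ρ' : CFlow Circle, TopLatticeConj Γ φ ρ ρ' ∧
      ¬ ∃ k : Circle ≃ₜ Circle, ∀ t m, k (ρ.map t m) = ρ'.map t (k m) := by
  obtain ⟨r, hr, hφ⟩ : ∃ r : ℝ, r ≠ 0 ∧ ∀ q : Q, ∃ k : ℤ, Multiplicative.toAdd (φ q) = k * r := by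
    let R : AddSubgroup ℝ :=
      { carrier := rng φ
        add_mem' := by
          rintro _ _ ⟨q, rfl⟩ ⟨q', rfl⟩
          exact ⟨q * q', by simp⟩
        zero_mem' := ⟨1, by simp⟩
        neg_mem' := by
          rintro _ ⟨q, rfl⟩
          exact ⟨q⁻¹, by simp⟩ }
    rcases R.dense_or_cyclic with h | ⟨a, ha⟩
    · exact absurd h hd
    · have hmem : ∀ q : Q, ∃ k : ℤ, Multiplicative.toAdd (φ q) = k * a := by
        intro q
        have h1 : (Multiplicative.toAdd (φ q) : ℝ) ∈ R := ⟨q, rfl⟩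
        rw [ha, AddSubgroup.mem_closure_singleton] at h1
        obtain ⟨k, hk⟩ := h1
        exact ⟨k, by rw [← hk]; simp⟩
      by_cases h0 : a = 0
      · refine ⟨1, one_ne_zero, fun q => ⟨0, ?_⟩⟩
        obtain ⟨k, hk⟩ := hmem q
        rw [hk, h0]; simp
      · exact ⟨a, h0, hmem⟩
  refine ⟨ofS (rotF r), ofS idF, homeoOf Γ φ _ _ (Homeomorph.refl _) ?_, ?_⟩
  · intro q z
    obtain ⟨k, hk⟩ := hφ q
    show Circle.exp (2 * Real.pi * Multiplicative.toAdd (φ q) / r) * z = z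
    have : 2 * Real.pi * Multiplicative.toAdd (φ q) / r = k * (2 * Real.pi) := by
      rw [hk]; field_simp
    rw [this, Circle.exp_int_mul_two_pi, one_mul]
  · rintro ⟨k, hk⟩
    have h1 := hk (r / 2) 1
    have h2 : (rotF r).map (r / 2) 1 = 1 := k.injective h1
    have h3 : Circle.exp (2 * Real.pi * (r / 2) / r) * 1 = 1 := h2
    have h4 : 2 * Real.pi * (r / 2) / r = Real.pi := by field_simp
    rw [h4, mul_one] at h3
    have h5 := congrArg (fun z : Circle => (z : ℂ)) h3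
    simp [Circle.coe_exp] at h5
    norm_num at h5

end Cex

/-- (1)-(3) describe all continuous maps between the induced spaces which commute with `Γ`, and all
topological conjugacies; (4) topological conjugacy of the `Γ`-actions implies topological conjugacy
of the flows, for all continuous flows on compact Hausdorff spaces, iff `φ` has dense range. -/
theorem result (E : Type) [NormedAddCommGroup E] [NormedSpace ℝ E] [FiniteDimensional ℝ E]
    (G : Type) [TopologicalSpace G] [ChartedSpace E G] [Group G] [LieGroup 𝓘(ℝ, E) ∞ G]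
    [T2Space G] [SecondCountableTopology G] [ConnectedSpace G] (hG : SimpleLie E G)
    (Γ : Subgroup G) (hΓ : Pool.Agent.T6.H55.ST.Lattice Γ) (Q : Subgroup G) (hQ : Parabolic E Q)
    (hQ' : Q ≠ ⊤) (φ : Q →* Multiplicative ℝ) (hφ : Continuous φ) :
    (∀ (M M' : Type) [TopologicalSpace M] [TopologicalSpace M'] [T35Space M']
      (ρ : CFlow M) (ρ' : CFlow M'),
      (∀ h : Ind φ ρ → Ind φ ρ',
        (Continuous h ∧ ∀ γ ∈ Γ, ∀ x, h (act φ ρ γ x) = act φ ρ' γ (h x)) ↔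
        ∃! k : M → M', Continuous k ∧
          (∀ t ∈ closure (rng φ), ∀ m, k (ρ.map t m) = ρ'.map t (k m)) ∧
          ∀ g m, h (cls φ ρ (g, m)) = cls φ ρ' (g, k m)) ∧
      (∀ k : M → M', Continuous k → (∀ t ∈ rng φ, ∀ m, k (ρ.map t m) = ρ'.map t (k m)) →
        ∃ h : Ind φ ρ → Ind φ ρ', Continuous h ∧ (∀ g x, h (act φ ρ g x) = act φ ρ' g (h x)) ∧
          ∀ g m, h (cls φ ρ (g, m)) = cls φ ρ' (g, k m)) ∧
      (T35Space M → (TopLatticeConj Γ φ ρ ρ' ↔
        ∃ k : M ≃ₜ M', ∀ t ∈ closure (rng φ), ∀ m, k (ρ.map t m) = ρ'.map t (k m)))) ∧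
    ((∀ (M M' : Type) [TopologicalSpace M] [TopologicalSpace M'] [CompactSpace M] [T2Space M]
      [CompactSpace M'] [T2Space M'] (ρ : CFlow M) (ρ' : CFlow M'),
      TopLatticeConj Γ φ ρ ρ' → ∃ k : M ≃ₜ M', ∀ t m, k (ρ.map t m) = ρ'.map t (k m)) ↔
      Dense (rng φ)) := by
  have : IsTopologicalGroup G := topologicalGroup_of_lieGroup 𝓘(ℝ, E) ∞
  have hM := mods E G
  have key : ∀ (M M' : Type) [TopologicalSpace M] [TopologicalSpace M'] [T35Space M]
      [T35Space M'] (ρ : CFlow M) (ρ' : CFlow M'), TopLatticeConj Γ φ ρ ρ' →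
      ∃ k : M ≃ₜ M', ∀ t ∈ closure (rng φ), ∀ m, k (ρ.map t m) = ρ'.map t (k m) := by
    intro M M' _ _ _ _ ρ ρ' hconj
    obtain ⟨h, hh⟩ := hconj
    have hh' : ∀ γ ∈ Γ, ∀ x, h.symm (act φ ρ' γ x) = act φ ρ γ (h.symm x) := by
      intro γ hγ x
      apply h.injective
      rw [hh γ hγ, Homeomorph.apply_symm_apply, Homeomorph.apply_symm_apply]
    obtain ⟨k, hk, hk2⟩ := fiber hM hG Q hQ hQ' φ hφ Γ hΓ ρ ρ' h h.continuous hh
    obtain ⟨k', hk', hk2'⟩ := fiber hM hG Q hQ hQ' φ hφ Γ hΓ ρ' ρ h.symm h.symm.continuous hh'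
    have inv1 : ∀ m, k' (k m) = m := by
      intro m
      have h1 := hk2' 1 (k m)
      rw [← hk2 1 m, Homeomorph.symm_apply_apply] at h1
      exact (cls_inj φ ρ _ _ _ h1).symm
    have inv2 : ∀ m, k (k' m) = m := by
      intro m
      have h1 := hk2 1 (k' m)
      rw [← hk2' 1 m, Homeomorph.apply_symm_apply] at h1
      exact (cls_inj φ ρ' _ _ _ h1).symm
    exact ⟨⟨⟨k, k', inv1, inv2⟩, hk, hk'⟩, interCl φ ρ ρ' k hk (inter φ ρ ρ' h k hk2)⟩
  refine ⟨?_, ?_, ?_⟩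
  · intro M M' _ _ _ ρ ρ'
    refine ⟨?_, ?_, ?_⟩
    · intro h
      constructor
      · rintro ⟨hs, hh⟩
        obtain ⟨k, hk, hk2⟩ := fiber hM hG Q hQ hQ' φ hφ Γ hΓ ρ ρ' h hs hh
        refine ⟨k, ⟨hk, interCl φ ρ ρ' k hk (inter φ ρ ρ' h k hk2), hk2⟩, ?_⟩
        rintro k' ⟨-, -, hk'⟩
        funext m
        have h1 := hk' 1 m
        rw [hk2 1 m] at h1
        exact (cls_inj φ ρ' _ _ _ h1).symm
      · rintro ⟨k, ⟨hk, -, hk2⟩, -⟩
        exact ⟨contOf φ ρ ρ' h k hk hk2, fun γ _ x => equivOf φ ρ ρ' h k hk2 γ x⟩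
    · intro k hk hq
      have hq' : ∀ (q : Q) (m : M), k (ρ.map (Multiplicative.toAdd (φ q)) m) =
          ρ'.map (Multiplicative.toAdd (φ q)) (k m) := fun q m => hq _ ⟨q, rfl⟩ m
      exact ⟨indMap φ ρ ρ' k hq', contOf φ ρ ρ' _ k hk (fun g m => rfl),
        fun g x => equivOf φ ρ ρ' _ k (fun g m => rfl) g x, fun g m => rfl⟩
    · intro _
      constructor
      · exact key M M' ρ ρ'
      · rintro ⟨k, hk⟩
        exact homeoOf Γ φ ρ ρ' k fun q m => hk _ (subset_closure ⟨q, rfl⟩) m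
  · intro h
    by_contra hcon
    obtain ⟨ρ, ρ', h1, h2⟩ := cexTop Γ Q φ hcon
    exact h2 (h _ _ ρ ρ' h1)
  · intro hd M M' _ _ _ _ _ _ ρ ρ' hconj
    obtain ⟨k, hk⟩ := key M M' ρ ρ' hconj
    refine ⟨k, fun t m => hk t ?_ m⟩
    rw [hd.closure_eq]
    exact Set.mem_univ t

end Pool.Agent.Results.MP_7614c4_an.ContinuousMaps
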