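import Pool.Graph.R_pool_sql_team_seeded_47a924f7.T6.H55.ST.Asm3
import Pool.Graph.R_pool_sql_team_seeded_47a924f7.T6.H55.ST.Jac
import Pool.Graph.R_pool_sql_team_seeded_47a924f7.T6.H55.ST.Aid
import Pool.Graph.R_pool_sql_team_seeded_47a924f7.T6.H55.ST.Gen
import Pool.Graph.R_pool_sql_team_seeded_47a924f7.T6.H55.ST.Trv
import Pool.Graph.R_pool_sql_team_seeded_47a924f7.T6.H55.ST.Fix
import Pool.Graph.R_pool_sql_team_seeded_47a924f7.T6.H55.ST.Pol
import Pool.Graph.R_pool_sql_team_seeded_47a924f7.T6.H55.ST.Eig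
import Pool.Graph.R_pool_sql_team_seeded_47a924f7.T6.H55.ST.Prt
import Pool.Graph.R_pool_sql_team_seeded_47a924f7.T6.H55.ST.Brk
import Pool.Graph.R_pool_sql_team_seeded_47a924f7.T6.H55.ST.Kil
import Pool.Graph.R_pool_sql_team_seeded_47a924f7.T6.H55.ST.Alg
import Pool.Graph.R_pool_sql_team_seeded_47a924f7.T6.H55.ST.Ucn
import Pool.Graph.R_pool_sql_team_seeded_47a924f7.T6.H55.ST.Rec
import Pool.Graph.R_pool_sql_team_seeded_47a924f7.T6.H55.ST.Mau
import Pool.Graph.R_pool_sql_team_seeded_47a924f7.T6.H55.ST.Ops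
import Pool.Graph.R_pool_sql_team_seeded_47a924f7.T6.H55.ST.Uni
import Pool.Graph.R_pool_sql_team_seeded_47a924f7.T6.H55.ST.Ads
import Pool.Graph.R_pool_sql_team_seeded_47a924f7.T6.H55.ST.Adc
import Pool.Graph.R_pool_sql_team_seeded_47a924f7.T6.H55.ST.Coo
import Pool.Graph.R_pool_sql_team_seeded_47a924f7.T6.H55.ST.Kit
import Pool.Graph.R_pool_sql_team_seeded_47a924f7.T6.H55.ST.Smo
import Pool.Graph.R_pool_sql_team_seeded_47a924f7.T6.H55.ST.Cex

/-!
# MP_7614c4_an: all smooth maps between parabolically induced actions which commute with a lattice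

`G` is a connected simple real Lie group (of any real rank), `Γ` a lattice, `Q` a proper parabolic
subgroup, `φ : Q → ℝ` any continuous homomorphism.  Every smooth `Γ`-equivariant map
`h : (G × M) / Q → (G × M') / Q` (not assumed injective or surjective, `M'` compact) is
`[g, m] ↦ [g, k m]` for a unique smooth `k : M → M'`, and these `k` are exactly the smooth maps with
`k ∘ ρ_t = ρ'_t ∘ k` for all `t` in the closure of the range of `φ`.  In particular `h` commutes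
with the whole of `G`.
-/

set_option autoImplicit false

open scoped Manifold ContDiff Topology
open Pool.Agent.T6.H55.ST

namespace Pool.Agent.Results.MP_7614c4_an.EquivariantMaps

theorem mods (E : Type) [NormedAddCommGroup E] [NormedSpace ℝ E] [FiniteDimensional ℝ E]
    (G : Type) [TopologicalSpace G] [ChartedSpace E G] [Group G] [LieGroup 𝓘(ℝ, E) ∞ G]
    [T2Space G] [SecondCountableTopology G] [ConnectedSpace G] [IsTopologicalGroup G] :
    Asm.Mods E G := by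
  have hJ := jac E G
  have hE := eigst E
  have hP := prt E
  have hB := brk E hE hP
  have hK := kil E hE hP hB
  have hL := alg E hE hP hB hK
  have hA := aid E G
  have hT := trv E G hJ hE hP hB (ucn G)
  have hF := Pool.Agent.T6.H55.ST.Fix.fix E G hJ hE hP hB hK hT hL
  have hGen := gen E G hJ hA hE hP hB
  have hAds := ads E G
  have hUni := uni E G
  have hAdc := adc E G hAds hUni
  have hCoo := coo E G
  have hKit := kit E G (Pool.Agent.T6.H55.ST.Ops.ops E G) hUni hAds hAdc hCoo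
  have hSmo := smo E G hKit hCoo (jac E G) hE hP hB
  exact ⟨hKit, hJ, hE, hP, hB, hF, hGen, pol E, Pool.Agent.T6.H55.ST.Rec.rec' G,
    Pool.Agent.T6.H55.ST.Mau.mau G, hSmo⟩

section Easy

variable {E : Type} [NormedAddCommGroup E] [NormedSpace ℝ E]
  {G : Type} [TopologicalSpace G] [ChartedSpace E G] [Group G]
  {F : Type} [NormedAddCommGroup F] [NormedSpace ℝ F]
  {M : Type} [TopologicalSpace M] [ChartedSpace F M]
  {F' : Type} [NormedAddCommGroup F'] [NormedSpace ℝ F']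
  {M' : Type} [TopologicalSpace M'] [ChartedSpace F' M']
  {Q : Subgroup G}

/-- A map of the form `[g, m] ↦ [g, k m]` forces `k` to intertwine the flows on the range. -/
theorem inter (φ : Q →* Multiplicative ℝ) (ρ : SFlow F M) (ρ' : SFlow F' M')
    (h : Ind φ ρ → Ind φ ρ') (k : M → M')
    (hk2 : ∀ g m, h (cls φ ρ (g, m)) = cls φ ρ' (g, k m)) (q : Q) (m : M) :
    k (ρ.map (Multiplicative.toAdd (φ q)) m) = ρ'.map (Multiplicative.toAdd (φ q)) (k m) := by
  have h1 := hk2 ((1 : G) * (q : G)⁻¹) (ρ.map (Multiplicative.toAdd (φ q)) m)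
  rw [Asm.cls_q φ ρ 1 m q, hk2 1 m, ← Asm.cls_q φ ρ' 1 (k m) q] at h1
  exact (Asm.cls_inj φ ρ' _ _ _ h1).symm

theorem interCl [T2Space M'] (φ : Q →* Multiplicative ℝ) (ρ : SFlow F M) (ρ' : SFlow F' M')
    (k : M → M') (hk : ContMDiff 𝓘(ℝ, F) 𝓘(ℝ, F') ∞ k)
    (hq : ∀ (q : Q) (m : M),
      k (ρ.map (Multiplicative.toAdd (φ q)) m) = ρ'.map (Multiplicative.toAdd (φ q)) (k m)) :
    ∀ t ∈ closure (Set.range fun q : Q => (Multiplicative.toAdd (φ q) : ℝ)), ∀ m,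
      k (ρ.map t m) = ρ'.map t (k m) := by
  intro t ht m
  have c1 : Continuous fun s : ℝ => k (ρ.map s m) := by
    have : Continuous fun s : ℝ => ((s, m) : ℝ × M) := by fun_prop
    exact hk.continuous.comp (ρ.smooth.continuous.comp this)
  have c2 : Continuous fun s : ℝ => ρ'.map s (k m) := by
    have : Continuous fun s : ℝ => ((s, k m) : ℝ × M') := by fun_prop
    exact ρ'.smooth.continuous.comp this
  have hcl : IsClosed {s : ℝ | k (ρ.map s m) = ρ'.map s (k m)} := isClosed_eq c1 c2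
  refine closure_minimal ?_ hcl ht
  rintro _ ⟨q, rfl⟩
  exact hq q m

theorem smoothOf (φ : Q →* Multiplicative ℝ) (ρ : SFlow F M) (ρ' : SFlow F' M')
    (h : Ind φ ρ → Ind φ ρ') (k : M → M') (hk : ContMDiff 𝓘(ℝ, F) 𝓘(ℝ, F') ∞ k)
    (hk2 : ∀ g m, h (cls φ ρ (g, m)) = cls φ ρ' (g, k m)) : SmoothInd E φ ρ ρ' h := by
  intro x
  refine ⟨Set.univ, Filter.univ_mem, fun y => (y.1, k y.2), ?_, ?_⟩
  · have h1 : ContMDiff (𝓘(ℝ, E).prod 𝓘(ℝ, F)) 𝓘(ℝ, E) ∞ (fun y : G × M => y.1) :=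
      contMDiff_fst
    have h2 : ContMDiff (𝓘(ℝ, E).prod 𝓘(ℝ, F)) 𝓘(ℝ, F') ∞ (fun y : G × M => k y.2) :=
      hk.comp contMDiff_snd
    exact (h1.prodMk h2).contMDiffOn
  · intro y _
    exact hk2 y.1 y.2

theorem equivOf (φ : Q →* Multiplicative ℝ) (ρ : SFlow F M) (ρ' : SFlow F' M')
    (h : Ind φ ρ → Ind φ ρ') (k : M → M')
    (hk2 : ∀ g m, h (cls φ ρ (g, m)) = cls φ ρ' (g, k m)) (g : G) (x : Ind φ ρ) :
    h (act φ ρ g x) = act φ ρ' g (h x) := by
  obtain ⟨y, rfl⟩ := Quotient.exists_rep x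
  show h (act φ ρ g (cls φ ρ y)) = act φ ρ' g (h (cls φ ρ y))
  rw [Asm.act_cls, hk2, show y = (y.1, y.2) from rfl, hk2, Asm.act_cls]

/-- The induced map of a map which intertwines the flows on the range of `φ`. -/
def indMap (φ : Q →* Multiplicative ℝ) (ρ : SFlow F M) (ρ' : SFlow F' M') (k : M → M')
    (hq : ∀ (q : Q) (m : M),
      k (ρ.map (Multiplicative.toAdd (φ q)) m) = ρ'.map (Multiplicative.toAdd (φ q)) (k m)) :
    Ind φ ρ → Ind φ ρ' :=
  Quotient.map' (s₁ := orb φ ρ) (s₂ := orb φ ρ') (fun x => (x.1, k x.2)) (by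
    rintro x y ⟨q, h1, h2⟩
    exact ⟨q, h1, by simp only; rw [h2, hq]⟩)

theorem indMap_cls (φ : Q →* Multiplicative ℝ) (ρ : SFlow F M) (ρ' : SFlow F' M') (k : M → M')
    (hq : ∀ (q : Q) (m : M),
      k (ρ.map (Multiplicative.toAdd (φ q)) m) = ρ'.map (Multiplicative.toAdd (φ q)) (k m))
    (x : G × M) : indMap φ ρ ρ' k hq (cls φ ρ x) = cls φ ρ' (x.1, k x.2) := rfl

end Easy

/-- The three parts describe all smooth maps `h : (G × M) / Q → (G × M') / Q` which commute with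
the lattice `Γ`, show that they commute with `G`, and describe all conjugacies. -/
theorem result (E : Type) [NormedAddCommGroup E] [NormedSpace ℝ E] [FiniteDimensional ℝ E]
    (G : Type) [TopologicalSpace G] [ChartedSpace E G] [Group G] [LieGroup 𝓘(ℝ, E) ∞ G]
    [T2Space G] [SecondCountableTopology G] [ConnectedSpace G] (hG : SimpleLie E G)
    (Γ : Subgroup G) (hΓ : Pool.Agent.T6.H55.ST.Lattice Γ) (Q : Subgroup G) (hQ : Parabolic E Q)
    (hQ' : Q ≠ ⊤) (φ : Q →* Multiplicative ℝ) (hφ : Continuous φ)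
    (F : Type) [NormedAddCommGroup F] [NormedSpace ℝ F]
    (M : Type) [TopologicalSpace M] [ChartedSpace F M]
    (F' : Type) [NormedAddCommGroup F'] [NormedSpace ℝ F']
    (M' : Type) [TopologicalSpace M'] [ChartedSpace F' M'] [CompactSpace M'] [T2Space M']
    (ρ : SFlow F M) (ρ' : SFlow F' M') :
    (∀ h : Ind φ ρ → Ind φ ρ',
      (SmoothInd E φ ρ ρ' h ∧ ∀ γ ∈ Γ, ∀ x, h (act φ ρ γ x) = act φ ρ' γ (h x)) ↔
      ∃! k : M → M', ContMDiff 𝓘(ℝ, F) 𝓘(ℝ, F') ∞ k ∧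
        (∀ t ∈ closure (Set.range fun q : Q => (Multiplicative.toAdd (φ q) : ℝ)), ∀ m,
          k (ρ.map t m) = ρ'.map t (k m)) ∧
        ∀ g m, h (cls φ ρ (g, m)) = cls φ ρ' (g, k m)) ∧
    (∀ h : Ind φ ρ → Ind φ ρ', SmoothInd E φ ρ ρ' h →
      (∀ γ ∈ Γ, ∀ x, h (act φ ρ γ x) = act φ ρ' γ (h x)) →
      ∀ g x, h (act φ ρ g x) = act φ ρ' g (h x)) ∧
    (∀ k : M → M', ContMDiff 𝓘(ℝ, F) 𝓘(ℝ, F') ∞ k →
      (∀ q : Q, ∀ m,
        k (ρ.map (Multiplicative.toAdd (φ q)) m) = ρ'.map (Multiplicative.toAdd (φ q)) (k m)) →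
      ∃ h : Ind φ ρ → Ind φ ρ', SmoothInd E φ ρ ρ' h ∧
        ∀ g m, h (cls φ ρ (g, m)) = cls φ ρ' (g, k m)) ∧
    (CompactSpace M → T2Space M → (LatticeConj E Γ φ ρ ρ' ↔
      ∃ k : Diffeomorph 𝓘(ℝ, F) 𝓘(ℝ, F') M M' ∞,
        ∀ t ∈ closure (Set.range fun q : Q => (Multiplicative.toAdd (φ q) : ℝ)), ∀ m,
          k (ρ.map t m) = ρ'.map t (k m))) := by
  have : IsTopologicalGroup G := topologicalGroup_of_lieGroup 𝓘(ℝ, E) ∞
  have hM := mods E G
  refine ⟨?_, ?_, ?_, ?_⟩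
  · intro h
    constructor
    · rintro ⟨hs, hh⟩
      obtain ⟨k, hk, hk2⟩ := Asm.fiber hM hG Q hQ hQ' φ hφ Γ hΓ ρ ρ' h hs hh
      refine ⟨k, ⟨hk, interCl φ ρ ρ' k hk (inter φ ρ ρ' h k hk2), hk2⟩, ?_⟩
      rintro k' ⟨-, -, hk'⟩
      funext m
      have h1 := hk' 1 m
      rw [hk2 1 m] at h1
      exact (Asm.cls_inj φ ρ' _ _ _ h1).symm
    · rintro ⟨k, ⟨hk, -, hk2⟩, -⟩
      exact ⟨smoothOf φ ρ ρ' h k hk hk2, fun γ _ x => equivOf φ ρ ρ' h k hk2 γ x⟩
  · intro h hs hh g x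
    obtain ⟨k, hk, hk2⟩ := Asm.fiber hM hG Q hQ hQ' φ hφ Γ hΓ ρ ρ' h hs hh
    exact equivOf φ ρ ρ' h k hk2 g x
  · intro k hk hq
    exact ⟨indMap φ ρ ρ' k hq,
      smoothOf φ ρ ρ' _ k hk (fun g m => indMap_cls φ ρ ρ' k hq (g, m)),
      fun g m => indMap_cls φ ρ ρ' k hq (g, m)⟩
  · intro _ _
    constructor
    · rintro ⟨h, hs, hs', hh⟩
      have hh' : ∀ γ ∈ Γ, ∀ x, h.symm (act φ ρ' γ x) = act φ ρ γ (h.symm x) := by
        intro γ hγ x
        rw [Equiv.symm_apply_eq, hh γ hγ, Equiv.apply_symm_apply]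
      obtain ⟨k, hk, hk2⟩ := Asm.fiber hM hG Q hQ hQ' φ hφ Γ hΓ ρ ρ' h hs hh
      obtain ⟨k', hk', hk2'⟩ := Asm.fiber hM hG Q hQ hQ' φ hφ Γ hΓ ρ' ρ h.symm hs' hh'
      have inv1 : ∀ m, k' (k m) = m := by
        intro m
        have h1 := hk2' 1 (k m)
        rw [← hk2 1 m, Equiv.symm_apply_apply] at h1
        exact (Asm.cls_inj φ ρ _ _ _ h1).symm
      have inv2 : ∀ m, k (k' m) = m := by
        intro m
        have h1 := hk2 1 (k' m)
        rw [← hk2' 1 m, Equiv.apply_symm_apply] at h1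
        exact (Asm.cls_inj φ ρ' _ _ _ h1).symm
      exact ⟨⟨⟨k, k', inv1, inv2⟩, hk, hk'⟩,
        interCl φ ρ ρ' k hk (inter φ ρ ρ' h k hk2)⟩
    · rintro ⟨k, hk⟩
      have hq : ∀ (q : Q) (m : M), k (ρ.map (Multiplicative.toAdd (φ q)) m) =
          ρ'.map (Multiplicative.toAdd (φ q)) (k m) :=
        fun q m => hk _ (subset_closure ⟨q, rfl⟩) m
      have hq' : ∀ (q : Q) (m : M'), k.symm (ρ'.map (Multiplicative.toAdd (φ q)) m) =
          ρ.map (Multiplicative.toAdd (φ q)) (k.symm m) := by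
        intro q m
        apply k.injective
        show k (k.symm (ρ'.map (Multiplicative.toAdd (φ q)) m)) =
          k (ρ.map (Multiplicative.toAdd (φ q)) (k.symm m))
        rw [hq, Diffeomorph.apply_symm_apply, Diffeomorph.apply_symm_apply]
      refine ⟨⟨indMap φ ρ ρ' k hq, indMap φ ρ' ρ k.symm hq', ?_, ?_⟩, ?_, ?_, ?_⟩
      · intro x
        obtain ⟨y, rfl⟩ := Quotient.exists_rep x
        show cls φ ρ (y.1, k.symm (k y.2)) = cls φ ρ y
        rw [Diffeomorph.symm_apply_apply]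
      · intro x
        obtain ⟨y, rfl⟩ := Quotient.exists_rep x
        show cls φ ρ' (y.1, k (k.symm y.2)) = cls φ ρ' y
        rw [Diffeomorph.apply_symm_apply]
      · exact smoothOf φ ρ ρ' _ k k.contMDiff (fun g m => rfl)
      · exact smoothOf φ ρ' ρ _ k.symm k.symm.contMDiff (fun g m => rfl)
      · intro γ _ x
        exact equivOf φ ρ ρ' _ k (fun g m => rfl) γ x

end Pool.Agent.Results.MP_7614c4_an.EquivariantMaps
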